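import Mathlib

/-! No zero-one law for the event that the greedy random walk returns at least once. -/

open MeasureTheory ProbabilityTheory
open scoped ENNReal Classical

namespace Pool.Agent.Results.MP_3fb035_pr.NoZeroOne

section Defs
variable {V : Type} (G : SimpleGraph V) [G.LocallyFinite]

/-- The set H_t of edges crossed by the path x up to time t. -/
def used (x : ℕ → V) (t : ℕ) : Set (Sym2 V) := {e | ∃ s, s < t ∧ e = s(x s, x (s + 1))}

/-- The other endpoints of the edges at x t that were not crossed up to time t (J_t). -/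
noncomputable def fresh (x : ℕ → V) (t : ℕ) : Finset V :=
  (G.neighborFinset (x t)).filter (fun y => s(x t, y) ∉ used x t)

/-- The set from which the next vertex is chosen uniformly: the fresh neighbours if there are
any, and all neighbours otherwise. -/
noncomputable def opts (x : ℕ → V) (t : ℕ) : Finset V :=
  if (fresh G x t).Nonempty then fresh G x t else G.neighborFinset (x t)

/-- Conditional probability of moving to y at time t + 1, given the path x up to time t. -/
noncomputable def stepProb (x : ℕ → V) (t : ℕ) (y : V) : ℝ≥0∞ :=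
  if y ∈ opts G x t then ((opts G x t).card : ℝ≥0∞)⁻¹ else 0

/-- μ is the law of the greedy random walk on G started at o: a probability measure on paths whose
finite-dimensional cylinder probabilities are the products of the step probabilities. -/
def IsGRW [MeasurableSpace V] (o : V) (μ : Measure (ℕ → V)) : Prop :=
  IsProbabilityMeasure μ ∧ ∀ (x : ℕ → V) (n : ℕ),
    μ {ω | ∀ i, i ≤ n → ω i = x i} =
      (if x 0 = o then 1 else 0) * ∏ t ∈ Finset.range n, stepProb G x t (x (t + 1))

end Defs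

/-- The Cayley graph of the integers with generators ±1, ±2. -/
def sq : SimpleGraph ℤ where
  Adj x y := y = x + 1 ∨ y = x - 1 ∨ y = x + 2 ∨ y = x - 2
  symm := ⟨fun x y h => by omega⟩
  loopless := ⟨fun x h => by omega⟩

noncomputable instance : sq.LocallyFinite := fun v =>
  Set.Finite.fintype ((Set.toFinite ({v + 1, v - 1, v + 2, v - 2} : Set ℤ)).subset (by
    intro y hy
    have : y = v + 1 ∨ y = v - 1 ∨ y = v + 2 ∨ y = v - 2 := hy
    simpa using this))

lemma adj_iff (x y : ℤ) : sq.Adj x y ↔ (y = x + 1 ∨ y = x - 1 ∨ y = x + 2 ∨ y = x - 2) := Iff.rfl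

lemma nb_eq (v : ℤ) : sq.neighborFinset v = {v + 1, v - 1, v + 2, v - 2} := by
  ext y; simp [adj_iff]

lemma nb_card (v : ℤ) : (sq.neighborFinset v).card = 4 := by
  rw [nb_eq, Finset.card_insert_of_notMem (by simp; omega),
    Finset.card_insert_of_notMem (by simp; omega), Finset.card_pair (by omega)]

lemma used_congr {x z : ℕ → ℤ} {t : ℕ} (h : ∀ i, i ≤ t → x i = z i) : used x t = used z t := by
  ext e
  constructor
  · rintro ⟨s, hs, rfl⟩; exact ⟨s, hs, by rw [h s hs.le, h (s + 1) hs]⟩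
  · rintro ⟨s, hs, rfl⟩; exact ⟨s, hs, by rw [h s hs.le, h (s + 1) hs]⟩

lemma opts_congr {x z : ℕ → ℤ} {t : ℕ} (h : ∀ i, i ≤ t → x i = z i) :
    opts sq x t = opts sq z t := by
  unfold opts fresh
  rw [used_congr h, h t le_rfl]

lemma opts_ne (x : ℕ → ℤ) (t : ℕ) : (opts sq x t).Nonempty := by
  unfold opts
  split_ifs with h
  · exact h
  · rw [← Finset.card_pos, nb_card]; norm_num

/-- used neighbours -/
noncomputable def U (x : ℕ → ℤ) (t : ℕ) (v : ℤ) : Finset ℤ :=
  (sq.neighborFinset v).filter (fun y => s(v, y) ∈ used x t)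

lemma used_succ (x : ℕ → ℤ) (t : ℕ) (e : Sym2 ℤ) :
    e ∈ used x (t + 1) ↔ e = s(x t, x (t + 1)) ∨ e ∈ used x t := by
  constructor
  · rintro ⟨s, hs, rfl⟩
    rcases Nat.lt_succ_iff_lt_or_eq.1 hs with h | rfl
    · exact Or.inr ⟨s, h, rfl⟩
    · exact Or.inl rfl
  · rintro (rfl | ⟨s, hs, rfl⟩)
    · exact ⟨t, by omega, rfl⟩
    · exact ⟨s, by omega, rfl⟩

lemma U_step (x : ℕ → ℤ) (t : ℕ) (h : x (t + 1) ∈ fresh sq x t) (v : ℤ) :
    (U x (t + 1) v).card =
      (U x t v).card + (if v = x t then 1 else 0) + (if v = x (t + 1) then 1 else 0) := by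
  simp only [fresh, Finset.mem_filter, SimpleGraph.mem_neighborFinset] at h
  obtain ⟨hadj, hn⟩ := h
  have hne : x t ≠ x (t + 1) := hadj.ne
  by_cases h1 : v = x t
  · have h2 : v ≠ x (t + 1) := by rw [h1]; exact hne
    have : U x (t + 1) v = insert (x (t + 1)) (U x t v) := by
      ext y
      simp only [U, Finset.mem_filter, Finset.mem_insert, SimpleGraph.mem_neighborFinset,
        used_succ, h1, Sym2.eq_iff]
      constructor
      · rintro ⟨ha, (⟨_, h⟩ | ⟨h, _⟩) | h⟩
        · exact Or.inl h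
        · exact absurd h hne
        · exact Or.inr ⟨ha, h⟩
      · rintro (rfl | ⟨ha, h⟩)
        · exact ⟨hadj, Or.inl (Or.inl ⟨trivial, rfl⟩)⟩
        · exact ⟨ha, Or.inr h⟩
    rw [this, Finset.card_insert_of_notMem (by simp [U, h1, hn])]
    simp [h1, hne]
  · by_cases h2 : v = x (t + 1)
    · have : U x (t + 1) v = insert (x t) (U x t v) := by
        ext y
        simp only [U, Finset.mem_filter, Finset.mem_insert, SimpleGraph.mem_neighborFinset,
          used_succ, h2, Sym2.eq_iff]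
        constructor
        · rintro ⟨ha, (⟨h, _⟩ | ⟨_, h⟩) | h⟩
          · exact absurd h.symm hne
          · exact Or.inl h
          · exact Or.inr ⟨ha, h⟩
        · rintro (rfl | ⟨ha, h⟩)
          · exact ⟨hadj.symm, Or.inl (Or.inr ⟨trivial, rfl⟩)⟩
          · exact ⟨ha, Or.inr h⟩
      have hn' : s(x (t + 1), x t) ∉ used x t := by rwa [Sym2.eq_swap]
      rw [this, Finset.card_insert_of_notMem (by simp [U, h2, hn'])]
      simp [h2, hne.symm]
    · have : U x (t + 1) v = U x t v := by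
        ext y
        simp only [U, Finset.mem_filter, SimpleGraph.mem_neighborFinset, used_succ, Sym2.eq_iff]
        tauto
      simp [this, h1, h2]

lemma fresh_of_odd (x : ℕ → ℤ) (t : ℕ) (h : (U x t (x t)).card % 2 = 1) :
    (fresh sq x t).Nonempty := by
  by_contra hn
  rw [Finset.not_nonempty_iff_eq_empty] at hn
  have h4 := Finset.card_filter_add_card_filter_not (s := sq.neighborFinset (x t))
    (fun y => s(x t, y) ∈ used x t)
  rw [nb_card] at h4
  have h0 : (fresh sq x t).card = 0 := by rw [hn]; rfl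
  unfold fresh at h0
  unfold U at h
  omega

lemma trap (x : ℕ → ℤ) (hl : ∀ t, x (t + 1) ∈ opts sq x t) (h0 : x 0 = 0) (h1 : x 1 = 2)
    (h2 : x 2 = 1) (h3 : x 3 = 3) (t : ℕ) :
    (∀ v, (U x t v).card % 2 = ((if v = 0 then 1 else 0) + (if v = x t then 1 else 0)) % 2) ∧
      (3 ≤ t → 2 ≤ x t) := by
  induction t with
  | zero =>
    refine ⟨fun v => ?_, by omega⟩
    have : U x 0 v = ∅ := by ext y; simp [U, used]
    rw [this, h0]; split_ifs <;> simp
  | succ t ih =>
    obtain ⟨ih1, ih2⟩ := ih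
    have hne : (fresh sq x t).Nonempty := by
      rcases Nat.eq_zero_or_pos t with rfl | ht
      · exact ⟨1, by simp [fresh, used, h0, adj_iff]⟩
      · apply fresh_of_odd
        have hx : x t ≠ 0 := by
          rcases (by omega : t = 1 ∨ t = 2 ∨ 3 ≤ t) with rfl | rfl | h
          · omega
          · omega
          · have := ih2 h; omega
        rw [ih1]; simp [hx]
    have hf : x (t + 1) ∈ fresh sq x t := by
      have := hl t
      unfold opts at this
      rwa [if_pos hne] at this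
    refine ⟨fun v => ?_, fun ht => ?_⟩
    · rw [U_step x t hf v]
      have := ih1 v
      split_ifs at this ⊢ <;> omega
    · rcases (by omega : t = 2 ∨ 3 ≤ t) with rfl | h
      · have : x (2 + 1) = 3 := h3
        omega
      · have hx := ih2 h
        simp only [fresh, Finset.mem_filter, SimpleGraph.mem_neighborFinset, adj_iff] at hf
        obtain ⟨ha, hn⟩ := hf
        by_contra hc
        apply hn
        have : (x t = 2 ∧ x (t + 1) = 0) ∨ (x t = 2 ∧ x (t + 1) = 1) ∨
            (x t = 3 ∧ x (t + 1) = 1) := by omega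
        rcases this with ⟨a, b⟩ | ⟨a, b⟩ | ⟨a, b⟩
        · exact ⟨0, by omega, by rw [a, b, h0, show x (0 + 1) = 2 from h1, Sym2.eq_swap]⟩
        · exact ⟨1, by omega, by rw [a, b, h1, show x (1 + 1) = 1 from h2]⟩
        · exact ⟨2, by omega, by rw [a, b, h2, show x (2 + 1) = 3 from h3, Sym2.eq_swap]⟩

/-- extension of a finite path -/
def ext (n : ℕ) (z : Fin (n + 1) → ℤ) : ℕ → ℤ := fun i => if h : i < n + 1 then z ⟨i, h⟩ else 0

lemma illegal_null {μ : Measure (ℕ → ℤ)} (hμ : IsGRW sq 0 μ) :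
    μ {ω | ∃ t, ω (t + 1) ∉ opts sq ω t} = 0 := by
  have : {ω : ℕ → ℤ | ∃ t, ω (t + 1) ∉ opts sq ω t} ⊆ ⋃ t : ℕ, ⋃ z : Fin (t + 1 + 1) → ℤ,
      ⋃ _ : ext (t + 1) z (t + 1) ∉ opts sq (ext (t + 1) z) t,
        {ω | ∀ i, i ≤ t + 1 → ω i = ext (t + 1) z i} := by
    rintro ω ⟨t, ht⟩
    simp only [Set.mem_iUnion]
    have he : ∀ i, i ≤ t + 1 → ω i = ext (t + 1) (fun j => ω j) i := by
      intro i hi; simp [ext, Nat.lt_succ_of_le hi]
    refine ⟨t, fun j => ω j, ?_, he⟩
    rw [← he _ le_rfl, ← opts_congr (fun i hi => he i (by omega))]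
    exact ht
  refine measure_mono_null this ?_
  refine measure_iUnion_null fun t => measure_iUnion_null fun z => measure_iUnion_null fun h => ?_
  rw [hμ.2, Finset.prod_range_succ]
  simp [stepProb, h]

lemma cyl_pos {μ : Measure (ℕ → ℤ)} (hμ : IsGRW sq 0 μ) (x : ℕ → ℤ) (h0 : x 0 = 0)
    (h : ∀ t, t < 3 → x (t + 1) ∈ fresh sq x t) : 0 < μ {ω | ∀ i, i ≤ 3 → ω i = x i} := by
  rw [hμ.2, if_pos h0, one_mul, pos_iff_ne_zero, Finset.prod_ne_zero_iff]
  intro t ht
  have h1 := h t (Finset.mem_range.1 ht)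
  have : opts sq x t = fresh sq x t := if_pos ⟨_, h1⟩
  simp [stepProb, this, h1]

/-- path 0, a, b, c -/
def p4 (a b c : ℤ) : ℕ → ℤ := fun i => if i = 0 then 0 else if i = 1 then a else if i = 2 then b else c

lemma fresh1 : ∀ t, t < 3 → p4 2 1 3 (t + 1) ∈ fresh sq (p4 2 1 3) t := by
  intro t ht
  simp only [fresh, Finset.mem_filter, SimpleGraph.mem_neighborFinset, adj_iff, used,
    Set.mem_ofPred_eq, not_exists, not_and]
  interval_cases t
  · simp [p4]
  · refine ⟨by simp [p4], fun s hs => ?_⟩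
    interval_cases s; simp [p4]
  · refine ⟨by simp [p4], fun s hs => ?_⟩
    interval_cases s <;> simp [p4]

lemma fresh2 : ∀ t, t < 3 → p4 1 2 0 (t + 1) ∈ fresh sq (p4 1 2 0) t := by
  intro t ht
  simp only [fresh, Finset.mem_filter, SimpleGraph.mem_neighborFinset, adj_iff, used,
    Set.mem_ofPred_eq, not_exists, not_and]
  interval_cases t
  · simp [p4]
  · refine ⟨by simp [p4], fun s hs => ?_⟩
    interval_cases s; simp [p4]
  · refine ⟨by simp [p4], fun s hs => ?_⟩
    interval_cases s <;> simp [p4]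

lemma cyl_meas (x : ℕ → ℤ) (n : ℕ) : MeasurableSet {ω : ℕ → ℤ | ∀ i, i ≤ n → ω i = x i} := by
  have : {ω : ℕ → ℤ | ∀ i, i ≤ n → ω i = x i} = ⋂ i, ⋂ _ : i ≤ n, (fun ω : ℕ → ℤ => ω i) ⁻¹' {x i} := by
    ext ω; simp
  rw [this]
  exact MeasurableSet.iInter fun i => MeasurableSet.iInter fun _ =>
    measurable_pi_apply i (measurableSet_singleton _)

/-! Existence of the law -/

noncomputable def nu (S : Finset ℤ) : Measure ℤ :=
  if h : S.Nonempty then (PMF.uniformOfFinset S h).toMeasure else Measure.dirac 0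

instance (S : Finset ℤ) : IsProbabilityMeasure (nu S) := by
  unfold nu; split_ifs <;> infer_instance

noncomputable def rho : Measure (Finset ℤ → ℤ) := Measure.infinitePi nu

instance : IsProbabilityMeasure rho := by unfold rho; infer_instance

lemma rho_ev (S : Finset ℤ) (h : S.Nonempty) (y : ℤ) :
    rho {f | f S = y} = if y ∈ S then (S.card : ℝ≥0∞)⁻¹ else 0 := by
  have h1 := (measurePreserving_eval_infinitePi nu S).measure_preimage
    (s := {y}) (measurableSet_singleton y).nullMeasurableSet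
  refine Eq.trans h1 ?_
  rw [nu, dif_pos h, PMF.toMeasure_apply_singleton _ _ (measurableSet_singleton y),
    PMF.uniformOfFinset_apply]
  split_ifs <;> rfl

noncomputable def hist (ω : ℕ → Finset ℤ → ℤ) : ℕ → ℕ → ℤ
  | 0 => fun _ => 0
  | n + 1 => Function.update (hist ω n) (n + 1) (ω n (opts sq (hist ω n) n))

noncomputable def X (ω : ℕ → Finset ℤ → ℤ) (n : ℕ) : ℤ := hist ω n n

lemma hist_eq (ω : ℕ → Finset ℤ → ℤ) (n : ℕ) : ∀ i, i ≤ n → hist ω n i = X ω i := by
  induction n with
  | zero => intro i hi; obtain rfl : i = 0 := by omega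
            rfl
  | succ n ih =>
    intro i hi
    rcases Nat.lt_or_eq_of_le hi with h | rfl
    · rw [hist, Function.update_of_ne (by omega), ih i (by omega)]
    · rfl

lemma X_succ (ω : ℕ → Finset ℤ → ℤ) (n : ℕ) : X ω (n + 1) = ω n (opts sq (X ω) n) := by
  rw [← opts_congr (hist_eq ω n)]
  simp [X, hist]

lemma ev_eq (x : ℕ → ℤ) (h0 : x 0 = 0) (n : ℕ) :
    {ω | ∀ i, i ≤ n → X ω i = x i} =
      Set.pi (Finset.range n : Finset ℕ) (fun t => {f : Finset ℤ → ℤ | f (opts sq x t) = x (t + 1)}) := by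
  ext ω
  simp only [Set.mem_ofPred_eq, Set.mem_pi, Finset.coe_range, Set.mem_Iio]
  constructor
  · intro h t ht
    rw [← h (t + 1) ht, X_succ, opts_congr (x := X ω) (z := x) (fun i hi => h i (by omega))]
  · intro h i
    induction i using Nat.strong_induction_on with
    | _ i ih =>
      intro hi
      rcases i with _ | i
      · rw [h0]; rfl
      · rw [X_succ, opts_congr (x := X ω) (z := x) (fun j hj => ih j (by omega) (by omega))]
        exact h i hi

lemma ev_meas (S : Finset ℤ) (y : ℤ) : MeasurableSet {f : Finset ℤ → ℤ | f S = y} :=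
  (measurable_pi_apply (X := fun _ : Finset ℤ => ℤ) S) (measurableSet_singleton y)

lemma ev_empty (x : ℕ → ℤ) (h0 : x 0 ≠ 0) (n : ℕ) : {ω | ∀ i, i ≤ n → X ω i = x i} = ∅ := by
  ext ω
  simp only [Set.mem_ofPred_eq, Set.mem_empty_iff_false, iff_false]
  intro h
  exact h0 (h 0 (Nat.zero_le _)).symm

lemma X_meas : Measurable X := by
  refine measurable_pi_iff.2 fun n => measurable_to_countable' fun y => ?_
  have : (fun ω => X ω n) ⁻¹' {y} = ⋃ z : Fin (n + 1) → ℤ, ⋃ _ : ext n z n = y,
      {ω | ∀ i, i ≤ n → X ω i = ext n z i} := by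
    ext ω
    simp only [Set.mem_preimage, Set.mem_singleton_iff, Set.mem_iUnion, Set.mem_ofPred_eq]
    constructor
    · intro h
      refine ⟨fun j => X ω j, by simp [ext, h], fun i hi => by simp [ext, Nat.lt_succ_of_le hi]⟩
    · rintro ⟨z, hz, h⟩
      rw [h n le_rfl, hz]
  rw [this]
  refine MeasurableSet.iUnion fun z => MeasurableSet.iUnion fun _ => ?_
  by_cases h0 : ext n z 0 = 0
  · rw [ev_eq _ h0]
    exact MeasurableSet.pi (Finset.countable_toSet _) fun t _ => ev_meas _ _
  · rw [ev_empty _ h0]; exact MeasurableSet.empty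

lemma exists_law : ∃ μ, IsGRW sq 0 μ := by
  refine ⟨(Measure.infinitePi fun _ : ℕ => rho).map X,
    Measure.isProbabilityMeasure_map X_meas.aemeasurable, fun x n => ?_⟩
  rw [Measure.map_apply X_meas (cyl_meas x n)]
  have : X ⁻¹' {ω : ℕ → ℤ | ∀ i, i ≤ n → ω i = x i} = {ω | ∀ i, i ≤ n → X ω i = x i} := rfl
  rw [this]
  by_cases h0 : x 0 = 0
  · rw [ev_eq _ h0, Measure.infinitePi_pi _ (fun t _ => ev_meas _ _), if_pos h0, one_mul]
    refine Finset.prod_congr rfl fun t _ => ?_
    rw [rho_ev _ (opts_ne x t), stepProb]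
    split_ifs <;> rfl
  · rw [ev_empty _ h0, if_neg h0]; simp

lemma conn : sq.Connected := by
  have h : ∀ n : ℤ, sq.Reachable 0 n := by
    intro n
    induction n using Int.induction_on with
    | zero => exact SimpleGraph.Reachable.refl _
    | succ n ih => exact ih.trans (SimpleGraph.Adj.reachable (Or.inl rfl))
    | pred n ih => exact ih.trans (SimpleGraph.Adj.reachable (Or.inr (Or.inl rfl)))
  exact ⟨fun u v => (h u).symm.trans (h v)⟩

/-- On the infinite, connected, locally finite, vertex-transitive graph sq the greedy random walk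
exists and returns to its start at least once with probability strictly between 0 and 1. -/
theorem result :
    sq.Connected ∧ (∀ u v : ℤ, ∃ φ : sq ≃g sq, φ u = v) ∧ (∃ μ, IsGRW sq 0 μ) ∧
      ∀ μ, IsGRW sq 0 μ →
        0 < μ {ω | ∃ t, 1 ≤ t ∧ ω t = 0} ∧ μ {ω | ∃ t, 1 ≤ t ∧ ω t = 0} < 1 := by
  refine ⟨conn, fun u v => ⟨⟨Equiv.addRight (v - u), ?_⟩, ?_⟩, exists_law, fun μ hμ => ⟨?_, ?_⟩⟩
  · intro a b
    simp only [Equiv.coe_addRight, adj_iff]
    omega
  · show u + (v - u) = v
    ring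
  · refine (cyl_pos hμ (p4 1 2 0) rfl fresh2).trans_le (measure_mono fun ω h => ?_)
    exact ⟨3, by norm_num, h 3 le_rfl⟩
  · haveI := hμ.1
    have hp := cyl_pos hμ (p4 2 1 3) rfl fresh1
    set C := {ω : ℕ → ℤ | ∀ i, i ≤ 3 → ω i = p4 2 1 3 i} with hC
    have hsub : {ω : ℕ → ℤ | ∃ t, 1 ≤ t ∧ ω t = 0} ⊆ Cᶜ ∪ {ω | ∃ t, ω (t + 1) ∉ opts sq ω t} := by
      rintro ω ⟨t, ht, h0⟩
      by_contra hc
      simp only [Set.mem_union, Set.mem_compl_iff, Set.mem_ofPred_eq, not_or, not_not,
        not_exists] at hc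
      obtain ⟨h1, h2⟩ := hc
      have a0 : ω 0 = 0 := h1 0 (by norm_num)
      have a1 : ω 1 = 2 := h1 1 (by norm_num)
      have a2 : ω 2 = 1 := h1 2 (by norm_num)
      have a3 : ω 3 = 3 := h1 3 (by norm_num)
      have := (trap ω h2 a0 a1 a2 a3 t).2
      rcases (by omega : t = 1 ∨ t = 2 ∨ 3 ≤ t) with rfl | rfl | h
      · omega
      · omega
      · have := this h; omega
    calc μ _ ≤ μ Cᶜ + μ {ω | ∃ t, ω (t + 1) ∉ opts sq ω t} :=
          (measure_mono hsub).trans (measure_union_le _ _)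
      _ = 1 - μ C := by rw [illegal_null hμ, add_zero, prob_compl_eq_one_sub (cyl_meas _ _)]
      _ < 1 := ENNReal.sub_lt_self ENNReal.one_ne_top one_ne_zero hp.ne'

end Pool.Agent.Results.MP_3fb035_pr.NoZeroOne
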